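import Pool.Agent.L7h17.TR.Stm

/-!
# Project TR (helper17), parts CNT and TWO
-/

set_option autoImplicit false

namespace Pool.Agent.L7h16.TR

open Pool.Agent.L7h17.TR

theorem s_CNT : S_CNT := by
  intro π hπ h
  have hp : ∀ x, π (π (π x)) = x := by
    intro x
    have h1 : (π ^ 3) x = x := by rw [hπ]; rfl
    simpa [pow_succ] using h1
  obtain ⟨f, hf⟩ : ∃ f : Function.End (Fin 22), f = fun x => π x := ⟨_, rfl⟩
  have hf3 : f ^ 3 ^ 1 = 1 := by
    have h3 : f ^ 3 ^ 1 = f * f * f := by
      rw [pow_one, pow_succ, pow_two]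
    rw [h3]
    funext x
    show f (f (f x)) = x
    rw [hf]
    exact hp x
  have h30 : Fact (Nat.Prime 3) := ⟨Nat.prime_three⟩
  have h0 := Equiv.Perm.card_fixedPoints_modEq (p := 3) (n := 1) (f := f) hf3
  obtain ⟨s, hs⟩ : ∃ s : Finset (Fin 22), s = Finset.univ.filter fun i => π i = i := ⟨_, rfl⟩
  have h1 : Fintype.card (Fin 22) ≡ s.card [MOD 3] := by
    classical
    have H : ∀ x, x ∈ s ↔ x ∈ Function.fixedPoints (fun y => π y) := by
      intro x
      rw [hs, Finset.mem_filter]
      constructor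
      · intro hx
        exact hx.2
      · intro hx
        exact ⟨Finset.mem_univ _, hx⟩
    have h2 := Fintype.card_of_subtype s H
    rw [← h2]
    rw [hf] at h0
    convert h0
  rw [Fintype.card_fin] at h1
  obtain ⟨h3, h4⟩ := h s (fun i hi => by rw [hs, Finset.mem_filter] at hi; exact hi.2)
  have h5 : s.card ≠ 4 := by
    intro h6
    have h7 := h4 h6
    have h8 : s = Finset.univ := Finset.eq_univ_iff_forall.2 h7
    rw [h8, Finset.card_univ, Fintype.card_fin] at h6
    omega
  have h6 : s.card = 1 := by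
    unfold Nat.ModEq at h1
    omega
  obtain ⟨a, ha⟩ := Finset.card_eq_one.1 h6
  refine ⟨a, ?_, ?_⟩
  · have h7 : a ∈ s := by rw [ha]; exact Finset.mem_singleton_self a
    rw [hs, Finset.mem_filter] at h7
    exact h7.2
  · intro b hb
    have h7 : b ∈ s := by rw [hs, Finset.mem_filter]; exact ⟨Finset.mem_univ _, hb⟩
    rw [ha, Finset.mem_singleton] at h7
    exact h7

theorem s_TWO : S_TWO := by
  classical
  intro π r hπ hu hr hc
  have hp : ∀ x, π (π (π x)) = x := by
    intro x
    have h1 : (π ^ 3) x = x := by rw [hπ]; rfl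
    simpa [pow_succ] using h1
  obtain ⟨a, b, hab, hN⟩ := Set.ncard_eq_two.1 hc
  have hinv : ∀ i, i = a ∨ i = b → π i = a ∨ π i = b := by
    intro i hi
    have h1 : i ∈ {i | ∃ j, r j i} := by
      rw [hN]
      rcases hi with h | h
      · exact Or.inl h
      · exact Or.inr h
    obtain ⟨j, hj⟩ := h1
    have h2 : π i ∈ {i | ∃ j, r j i} := ⟨π j, (hr i j).1 hj⟩
    rw [hN] at h2
    exact h2
  have hane : π a ≠ π b := fun h => hab (π.injective h)
  rcases hinv a (Or.inl rfl) with h1 | h1
  · rcases hinv b (Or.inr rfl) with h2 | h2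
    · exact hane (by rw [h1, h2])
    · exact hab (hu.unique h1 h2)
  · rcases hinv b (Or.inr rfl) with h2 | h2
    · have h3 := hp a
      rw [h1, h2, h1] at h3
      exact hab h3.symm
    · exact hane (by rw [h1, h2])

end Pool.Agent.L7h16.TR
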